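import Mathlib

set_option autoImplicit false

namespace Pool.Agent.Results.MP_122225_al.SpectralRadius

open Filter Topology

/-! ### Definitions of the problem -/

/-- Left amenability: an invariant finitely additive probability measure on all subsets. -/
def LeftAmenable (S : Type) [Monoid S] : Prop :=
  ∃ m : Set S → ℝ, (∀ A : Set S, 0 ≤ m A) ∧ m Set.univ = 1 ∧
    (∀ A B : Set S, Disjoint A B → m (A ∪ B) = m A + m B) ∧
    ∀ (A : Set S) (a : S), m {s : S | a * s ∈ A} = m A

/-- Left reversibility: no two disjoint right ideals. -/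
def LeftReversible (S : Type) [Monoid S] : Prop :=
  ∀ a b : S, ∃ s t : S, a * s = b * t

/-- The Klawe condition. -/
def Klawe (S : Type) [Monoid S] : Prop :=
  ∀ s x y : S, s * x = s * y → ∃ t : S, x * t = y * t

/-- Real square summable functions on `S`. -/
abbrev L2 (S : Type) : Type := lp (fun _ : S => ℝ) 2

/-- `T` is the left random walk Markov operator `M_X` on square summable functions:
`(v M)(t)` is the sum over `s` of `v(s) M_{st}`, where `M_{st}` is the proportion of the indices
`i` with `x_i s = t`. -/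
def IsWalkOperator {S : Type} [Monoid S] {k : ℕ} (X : Fin k → S) (T : L2 S →L[ℝ] L2 S) : Prop :=
  ∀ (v : L2 S) (t : S),
    HasSum (fun s : S => v s * ((Nat.card {i : Fin k // X i * s = t} : ℝ) / k)) (T v t)

/-! ### Operators of finite-to-one maps -/

section Comp

variable {S : Type}

/-- `f` is at most three-to-one: every `s` is one of three functions of `f s`. -/
def ThreeToOne (f : S → S) : Prop := ∃ r : Fin 3 → S → S, ∀ s : S, ∃ i, r i (f s) = s

lemma summable_comp {f : S → S} (hf : ThreeToOne f) {g : S → ℝ} (hg : ∀ s, 0 ≤ g s)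
    (hs : Summable g) : Summable (fun s => g (f s)) ∧ ∑' s, g (f s) ≤ 3 * ∑' s, g s := by
  classical
  obtain ⟨r, hr⟩ := hf
  have hle : ∀ s, g (f s) ≤ ∑ i : Fin 3, (if r i (f s) = s then g (f s) else 0) := by
    intro s
    obtain ⟨i, hi⟩ := hr s
    have h1 : (if r i (f s) = s then g (f s) else 0) ≤
        ∑ i : Fin 3, (if r i (f s) = s then g (f s) else 0) := by
      apply Finset.single_le_sum (f := fun i => if r i (f s) = s then g (f s) else 0)
      · intro j _
        show 0 ≤ if r j (f s) = s then g (f s) else 0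
        split_ifs
        · exact hg _
        · exact le_rfl
      · exact Finset.mem_univ i
    rw [if_pos hi] at h1
    exact h1
  have hi : ∀ i : Fin 3, Summable (fun s => if r i (f s) = s then g (f s) else 0) ∧
      ∑' s, (if r i (f s) = s then g (f s) else 0) ≤ ∑' s, g s := by
    intro i
    let A : Set S := {s | r i (f s) = s}
    have hinj : Function.Injective (fun s : A => f s.1) := by
      intro s t hst
      apply Subtype.ext
      have h1 : r i (f s.1) = s.1 := s.2
      have h2 : r i (f t.1) = t.1 := t.2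
      have h3 : f s.1 = f t.1 := hst
      rw [← h1, ← h2, h3]
    have h1 : Summable (fun s : A => g (f s.1)) := hs.comp_injective hinj
    have heq : (fun s => if r i (f s) = s then g (f s) else 0) =
        A.indicator (fun s => g (f s)) := by
      funext s
      by_cases h : r i (f s) = s
      · rw [if_pos h, Set.indicator_of_mem (show s ∈ A from h)]
      · rw [if_neg h, Set.indicator_of_notMem (show s ∉ A from h)]
    rw [heq]
    constructor
    · exact (summable_subtype_iff_indicator).1 h1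
    · rw [← tsum_subtype A (fun s => g (f s))]
      exact Summable.tsum_le_tsum_of_inj (fun s : A => f s.1) hinj (fun c _ => hg c)
        (fun s => le_rfl) h1 hs
  have hsum : Summable (fun s => ∑ i : Fin 3, (if r i (f s) = s then g (f s) else 0)) :=
    summable_sum (fun i _ => (hi i).1)
  have hS : Summable (fun s => g (f s)) :=
    Summable.of_nonneg_of_le (fun s => hg _) hle hsum
  refine ⟨hS, (hS.tsum_le_tsum hle hsum).trans ?_⟩
  rw [Summable.tsum_finsetSum (fun i _ => (hi i).1)]
  refine (Finset.sum_le_sum (fun i _ => (hi i).2)).trans ?_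
  rw [Finset.sum_const, Finset.card_univ, Fintype.card_fin, nsmul_eq_mul]
  norm_num

lemma norm_sq_eq (u : L2 S) : ‖u‖ ^ 2 = ∑' s, (u s) ^ 2 := by
  have h := lp.norm_rpow_eq_tsum (p := 2) (by norm_num) u
  simpa [sq_abs] using h

lemma summable_sq (u : L2 S) : Summable (fun s => (u s) ^ 2) := by
  have h := (lp.memℓp u).summable (p := 2) (by norm_num)
  simpa [sq_abs] using h

/-- The composition operator. -/
noncomputable def compOp (f : S → S) (hf : ThreeToOne f) : L2 S →L[ℝ] L2 S :=
  LinearMap.mkContinuous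
    { toFun := fun u => ⟨fun s => u (f s), by
        apply memℓp_gen
        have h := (summable_comp hf (g := fun s => (u s) ^ 2) (fun s => sq_nonneg _)
          (summable_sq u)).1
        simpa [sq_abs] using h⟩
      map_add' := fun u v => by
        ext s
        rfl
      map_smul' := fun c u => by
        ext s
        rfl }
    (Real.sqrt 3) (by
      intro u
      apply le_of_sq_le_sq _ (by positivity)
      rw [mul_pow, Real.sq_sqrt (by norm_num), norm_sq_eq, norm_sq_eq]
      exact (summable_comp hf (g := fun s => (u s) ^ 2) (fun s => sq_nonneg _)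
          (summable_sq u)).2)

lemma compOp_apply (f : S → S) (hf : ThreeToOne f) (u : L2 S) (s : S) :
    compOp f hf u s = u (f s) := rfl

/-- The transfer operator. -/
noncomputable def lamOp (f : S → S) (hf : ThreeToOne f) : L2 S →L[ℝ] L2 S :=
  ContinuousLinearMap.adjoint (compOp f hf)

open Classical in
lemma hasSum_lamOp (f : S → S) (hf : ThreeToOne f) (v : L2 S) (t : S) :
    HasSum (fun s => v s * (if f s = t then 1 else 0)) (lamOp f hf v t) := by
  have h1 : inner ℝ (lp.single 2 t (1 : ℝ) : L2 S) (lamOp f hf v) = lamOp f hf v t := by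
    rw [lp.inner_single_left]
    simp
  have h2 : inner ℝ (lp.single 2 t (1 : ℝ) : L2 S) (lamOp f hf v) =
      inner ℝ (compOp f hf (lp.single 2 t (1 : ℝ) : L2 S)) v := by
    unfold lamOp
    rw [ContinuousLinearMap.adjoint_inner_right]
  rw [← h1, h2]
  have h3 := lp.hasSum_inner (𝕜 := ℝ) (compOp f hf (lp.single 2 t (1 : ℝ) : L2 S)) v
  have h4 : (fun s => v s * (if f s = t then 1 else 0)) =
      fun s => inner ℝ (compOp f hf (lp.single 2 t (1 : ℝ) : L2 S) s) (v s) := by
    funext s
    rw [compOp_apply, lp.single_apply]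
    by_cases h : f s = t
    · subst h
      simp
    · simp [h]
  rw [h4]
  exact h3

end Comp

/-! ### The monoid -/

/-- The monoid with generators `a, b_0, b_1` and relations `a b_0 = a b_1 = 1`; the element
`(p, q)` stands for `b_p a ^ q`. -/
@[ext]
structure Tm where
  p : List Bool
  q : ℕ

instance : Mul Tm := ⟨fun x y => ⟨x.p ++ y.p.drop x.q, (x.q - y.p.length) + y.q⟩⟩
instance : One Tm := ⟨⟨[], 0⟩⟩

lemma tm_mul (x y : Tm) : x * y = ⟨x.p ++ y.p.drop x.q, (x.q - y.p.length) + y.q⟩ := rfl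
lemma tm_one : (1 : Tm) = ⟨[], 0⟩ := rfl

instance : Monoid Tm where
  mul_assoc x y z := by
    apply Tm.ext
    · simp only [tm_mul, List.append_assoc, List.drop_append, List.drop_drop]
      congr 3
      omega
    · simp only [tm_mul, List.length_append, List.length_drop]
      omega
  one_mul x := by
    apply Tm.ext
    · simp [tm_mul, tm_one]
    · simp [tm_mul, tm_one]
  mul_one x := by
    apply Tm.ext
    · simp [tm_mul, tm_one]
    · simp [tm_mul, tm_one]

/-- The degree of an element. -/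
def dg (x : Tm) : ℤ := (x.p.length : ℤ) - x.q

lemma dg_mul (x y : Tm) : dg (x * y) = dg x + dg y := by
  simp only [dg, tm_mul, List.length_append, List.length_drop]
  push_cast
  omega

lemma dg_one : dg 1 = 0 := rfl

/-- The monoid `F`: the elements `t w` stand for the elements `w` of the previous monoid and
`c d w` for `t ^ d c w`. -/
inductive FF where
  | t : Tm → FF
  | c : ℤ → Tm → FF

/-- The multiplication. -/
def ffMul : FF → FF → FF
  | FF.t w, FF.t w' => FF.t (w * w')
  | FF.t w, FF.c d w' => FF.c (dg w + d) w'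
  | FF.c d w, FF.t w' => FF.c d (w * w')
  | FF.c d w, FF.c d' w' => FF.c (d + dg w + d') w'

instance : Mul FF := ⟨ffMul⟩
instance : One FF := ⟨FF.t 1⟩

lemma tt_mul (w w' : Tm) : FF.t w * FF.t w' = FF.t (w * w') := rfl
lemma tc_mul (w : Tm) (d : ℤ) (w' : Tm) : FF.t w * FF.c d w' = FF.c (dg w + d) w' := rfl
lemma ct_mul (d : ℤ) (w w' : Tm) : FF.c d w * FF.t w' = FF.c d (w * w') := rfl
lemma cc_mul (d : ℤ) (w : Tm) (d' : ℤ) (w' : Tm) :
    FF.c d w * FF.c d' w' = FF.c (d + dg w + d') w' := rfl
lemma ff_one : (1 : FF) = FF.t 1 := rfl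

instance : Monoid FF where
  mul_assoc x y z := by
    rcases x with w | ⟨d, w⟩ <;> rcases y with w' | ⟨d', w'⟩ <;> rcases z with w'' | ⟨d'', w''⟩ <;>
      simp only [tt_mul, tc_mul, ct_mul, cc_mul, mul_assoc, dg_mul, FF.c.injEq, and_true] <;> ring
  one_mul x := by
    rcases x with w | ⟨d, w⟩
    · rw [ff_one, tt_mul, one_mul]
    · rw [ff_one, tc_mul, dg_one, zero_add]
  mul_one x := by
    rcases x with w | ⟨d, w⟩
    · rw [ff_one, tt_mul, mul_one]
    · rw [ff_one, ct_mul, mul_one]

/-- The degree of an element of `F`. -/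
def dgF : FF → ℤ
  | FF.t w => dg w
  | FF.c d w => d + dg w

lemma dgF_mul (x y : FF) : dgF (x * y) = dgF x + dgF y := by
  rcases x with w | ⟨d, w⟩ <;> rcases y with w' | ⟨d', w'⟩ <;>
    simp only [tt_mul, tc_mul, ct_mul, cc_mul, dgF, dg_mul] <;> ring

lemma mul_c (x : FF) (d : ℤ) (w : Tm) : x * FF.c d w = FF.c (dgF x + d) w := by
  rcases x with w' | ⟨d', w'⟩
  · rfl
  · rfl

/-- The whole monoid. -/
abbrev SS : Type := FreeGroup Bool × FF

lemma klawe : Klawe SS := by
  rintro ⟨g, s⟩ ⟨h, x⟩ ⟨h', y⟩ hxy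
  have h1 : g * h = g * h' := congrArg Prod.fst hxy
  have h2 : s * x = s * y := congrArg Prod.snd hxy
  have h3 : dgF x = dgF y := by
    have := congrArg dgF h2
    rw [dgF_mul, dgF_mul] at this
    linarith
  refine ⟨(1, FF.c 0 1), ?_⟩
  rw [Prod.mk_mul_mk, Prod.mk_mul_mk, mul_c, mul_c, h3, mul_left_cancel h1]

lemma leftReversible : LeftReversible SS := by
  rintro ⟨g, x⟩ ⟨h, y⟩
  refine ⟨(g⁻¹, FF.c 0 1), (h⁻¹, FF.c (dgF x - dgF y) 1), ?_⟩
  rw [Prod.mk_mul_mk, Prod.mk_mul_mk, mul_c, mul_c, mul_inv_cancel, mul_inv_cancel]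
  congr 2
  ring

/-! ### Failure of left amenability -/

lemma mean_mono {G : Type} {m : Set G → ℝ} (h0 : ∀ A : Set G, 0 ≤ m A)
    (hadd : ∀ A B : Set G, Disjoint A B → m (A ∪ B) = m A + m B) {A B : Set G} (h : A ⊆ B) :
    m A ≤ m B := by
  have h1 := hadd A (B \ A) Set.disjoint_sdiff_right
  rw [Set.union_sdiff_cancel h] at h1
  have := h0 (B \ A)
  linarith

lemma mean_union_le {G : Type} {m : Set G → ℝ} (h0 : ∀ A : Set G, 0 ≤ m A)
    (hadd : ∀ A B : Set G, Disjoint A B → m (A ∪ B) = m A + m B) (A B : Set G) :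
    m (A ∪ B) ≤ m A + m B := by
  have h1 := hadd A (B \ A) Set.disjoint_sdiff_right
  rw [Set.union_sdiff_self] at h1
  have := mean_mono h0 hadd (A := B \ A) (B := B) Set.sdiff_subset
  linarith

lemma free_not_amenable : ¬ LeftAmenable (FreeGroup Bool) := by
  rintro ⟨m, h0, h1, hadd, hinv⟩
  have key : ∀ a : Bool, 1 ≤ m (FreeGroup.startsWith (a, true)) +
      m (FreeGroup.startsWith (a, false)) := by
    intro a
    have hcov : (Set.univ : Set (FreeGroup Bool)) =
        FreeGroup.startsWith (a, false) ∪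
          {x | FreeGroup.mk [(a, true)] * x ∈ FreeGroup.startsWith (a, true)} := by
      apply Eq.symm
      rw [Set.eq_univ_iff_forall]
      intro g
      by_cases hg : g ∈ FreeGroup.startsWith (a, false)
      · exact Or.inl hg
      · right
        exact FreeGroup.startsWith_mk_mul g hg
    have h2 := mean_union_le h0 hadd (FreeGroup.startsWith (a, false))
      {x | FreeGroup.mk [(a, true)] * x ∈ FreeGroup.startsWith (a, true)}
    rw [← hcov, h1, hinv] at h2
    linarith
  have k1 := key true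
  have k2 := key false
  have d1 : Disjoint (FreeGroup.startsWith (true, true)) (FreeGroup.startsWith (true, false)) :=
    FreeGroup.startsWith.disjoint_iff_ne.2 (by decide)
  have d2 : Disjoint (FreeGroup.startsWith (false, true)) (FreeGroup.startsWith (false, false)) :=
    FreeGroup.startsWith.disjoint_iff_ne.2 (by decide)
  have d3 : Disjoint (FreeGroup.startsWith (true, true) ∪ FreeGroup.startsWith (true, false))
      (FreeGroup.startsWith (false, true) ∪ FreeGroup.startsWith (false, false)) := by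
    rw [Set.disjoint_union_left, Set.disjoint_union_right, Set.disjoint_union_right]
    refine ⟨⟨?_, ?_⟩, ⟨?_, ?_⟩⟩ <;> exact FreeGroup.startsWith.disjoint_iff_ne.2 (by decide)
  have h3 := hadd _ _ d3
  rw [hadd _ _ d1, hadd _ _ d2] at h3
  have h4 := mean_mono h0 hadd (Set.subset_univ
    ((FreeGroup.startsWith (true, true) ∪ FreeGroup.startsWith (true, false)) ∪
      (FreeGroup.startsWith (false, true) ∪ FreeGroup.startsWith (false, false))))
  rw [h1] at h4
  linarith

lemma not_amenable : ¬ LeftAmenable SS := by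
  rintro ⟨m, h0, h1, hadd, hinv⟩
  apply free_not_amenable
  refine ⟨fun A => m (Prod.fst ⁻¹' A), fun A => h0 _, by simpa using h1, ?_, ?_⟩
  · intro A B hAB
    show m (Prod.fst ⁻¹' (A ∪ B)) = _
    rw [Set.preimage_union]
    exact hadd _ _ (hAB.preimage _)
  · intro A g
    exact hinv (Prod.fst ⁻¹' A) (g, 1)

/-! ### The generators -/

/-- The element `a`. -/
def ga : FF := FF.t ⟨[], 1⟩
/-- The elements `b_0, b_1`. -/
def gb (x : Bool) : FF := FF.t ⟨[x], 0⟩
/-- The element `c`. -/
def gc : FF := FF.c 0 1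

/-- The generating family: `(1, a)` is repeated 17 times. -/
def X (i : Fin 24) : SS :=
  if i.val < 17 then (1, ga)
  else if i.val = 17 then (FreeGroup.of true, 1)
  else if i.val = 18 then ((FreeGroup.of true)⁻¹, 1)
  else if i.val = 19 then (FreeGroup.of false, 1)
  else if i.val = 20 then ((FreeGroup.of false)⁻¹, 1)
  else if i.val = 21 then (1, gb true)
  else if i.val = 22 then (1, gb false)
  else (1, gc)

lemma gen_closure : Submonoid.closure (Set.range X) = ⊤ := by
  set H := Submonoid.closure (Set.range X) with hH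
  have hX : ∀ i, X i ∈ H := fun i => Submonoid.subset_closure ⟨i, rfl⟩
  have ha : ((1, ga) : SS) ∈ H := hX 0
  have hb : ∀ x, ((1, gb x) : SS) ∈ H := by
    intro x
    cases x
    · exact hX 22
    · exact hX 21
  have hc : ((1, gc) : SS) ∈ H := hX 23
  have hof : ∀ x : Bool, ((FreeGroup.of x, 1) : SS) ∈ H := by
    intro x
    cases x
    · exact hX 19
    · exact hX 17
  have hofi : ∀ x : Bool, (((FreeGroup.of x)⁻¹, 1) : SS) ∈ H := by
    intro x
    cases x
    · exact hX 20
    · exact hX 18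
  have hfree : ∀ g : FreeGroup Bool, ((g, 1) : SS) ∈ H := by
    intro g
    induction g using FreeGroup.induction_on with
    | C1 => exact H.one_mem
    | of x => exact hof x
    | inv_of x _ => exact hofi x
    | mul x y hx hy =>
        have := H.mul_mem hx hy
        rwa [Prod.mk_mul_mk, one_mul] at this
  have hmul : ∀ x y : FF, ((1, x) : SS) ∈ H → ((1, y) : SS) ∈ H → ((1, x * y) : SS) ∈ H := by
    intro x y hx hy
    have := H.mul_mem hx hy
    rwa [Prod.mk_mul_mk, one_mul] at this
  have hapow : ∀ n : ℕ, ((1, FF.t ⟨[], n⟩) : SS) ∈ H := by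
    intro n
    induction n with
    | zero => exact H.one_mem
    | succ n ih =>
        have h1 := hmul _ _ ih ha
        have h2 : FF.t ⟨[], n⟩ * ga = FF.t ⟨[], n + 1⟩ := by
          unfold ga
          rw [tt_mul, tm_mul]
          simp
        rwa [h2] at h1
  have hbw : ∀ p : List Bool, ((1, FF.t ⟨p, 0⟩) : SS) ∈ H := by
    intro p
    induction p with
    | nil => exact H.one_mem
    | cons x p ih =>
        have h1 := hmul _ _ (hb x) ih
        have h2 : gb x * FF.t ⟨p, 0⟩ = FF.t ⟨x :: p, 0⟩ := by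
          unfold gb
          rw [tt_mul, tm_mul]
          simp
        rwa [h2] at h1
  have ht : ∀ w : Tm, ((1, FF.t w) : SS) ∈ H := by
    rintro ⟨p, q⟩
    have h1 := hmul _ _ (hbw p) (hapow q)
    have h2 : FF.t ⟨p, 0⟩ * FF.t ⟨[], q⟩ = FF.t ⟨p, q⟩ := by
      rw [tt_mul, tm_mul]
      simp
    rwa [h2] at h1
  have hF : ∀ x : FF, ((1, x) : SS) ∈ H := by
    intro x
    rcases x with w | ⟨d, w⟩
    · exact ht w
    · have hd : ((1, FF.c d 1) : SS) ∈ H := by
        rcases Int.le_total 0 d with h | h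
        · obtain ⟨n, rfl⟩ := Int.eq_ofNat_of_zero_le h
          have h1 := hmul _ _ (hbw (List.replicate n true)) hc
          have h2 : FF.t ⟨List.replicate n true, 0⟩ * gc = FF.c n 1 := by
            unfold gc
            rw [tc_mul]
            simp [dg]
          rwa [h2] at h1
        · obtain ⟨n, hn⟩ := Int.eq_ofNat_of_zero_le (show 0 ≤ -d by omega)
          have h1 := hmul _ _ (hapow n) hc
          have h2 : FF.t ⟨[], n⟩ * gc = FF.c d 1 := by
            unfold gc
            rw [tc_mul]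
            simp only [dg, List.length_nil, Nat.cast_zero, add_zero, FF.c.injEq, and_true]
            omega
          rwa [h2] at h1
      have h1 := hmul _ _ hd (ht w)
      rwa [ct_mul, one_mul] at h1
  rw [eq_top_iff]
  rintro ⟨g, x⟩ _
  have h1 := H.mul_mem (hfree g) (hF x)
  rwa [Prod.mk_mul_mk, mul_one, one_mul] at h1

/-! ### The fibres -/

lemma three_of_snd (g : FreeGroup Bool) (x : FF) (h : ThreeToOne (fun y : FF => x * y)) :
    ThreeToOne (fun s : SS => ((g, x) : SS) * s) := by
  obtain ⟨r, hr⟩ := h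
  refine ⟨fun i s => (g⁻¹ * s.1, r i s.2), ?_⟩
  rintro ⟨k, y⟩
  obtain ⟨i, hi⟩ := hr y
  refine ⟨i, ?_⟩
  show (g⁻¹ * (g * k), r i (x * y)) = (k, y)
  rw [inv_mul_cancel_left, hi]

lemma three_one : ThreeToOne (fun y : FF => 1 * y) :=
  ⟨fun _ y => y, fun y => ⟨0, one_mul y⟩⟩

/-- The three candidates for the preimage under `a`. -/
def ra (i : Fin 3) : FF → FF
  | FF.t w => if i = 0 then FF.t ⟨false :: w.p, w.q⟩
      else if i = 1 then FF.t ⟨true :: w.p, w.q⟩ else FF.t ⟨[], w.q - 1⟩
  | FF.c d w => FF.c (d + 1) w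

lemma three_a : ThreeToOne (fun y : FF => ga * y) := by
  refine ⟨ra, ?_⟩
  intro y
  rcases y with ⟨p, q⟩ | ⟨d, w⟩
  · rcases p with _ | ⟨x, p⟩
    · refine ⟨2, ?_⟩
      show ra 2 (FF.t (⟨[], 1⟩ * ⟨[], q⟩)) = _
      rw [tm_mul]
      simp [ra]
    · cases x
      · refine ⟨0, ?_⟩
        show ra 0 (FF.t (⟨[], 1⟩ * ⟨false :: p, q⟩)) = _
        rw [tm_mul]
        simp [ra]
      · refine ⟨1, ?_⟩
        show ra 1 (FF.t (⟨[], 1⟩ * ⟨true :: p, q⟩)) = _
        rw [tm_mul]
        simp [ra]
  · refine ⟨0, ?_⟩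
    show ra 0 (FF.c (dg ⟨[], 1⟩ + d) w) = _
    simp [ra, dg]

/-- The preimage under `b`. -/
def rb : FF → FF
  | FF.t w => FF.t ⟨w.p.tail, w.q⟩
  | FF.c d w => FF.c (d - 1) w

lemma three_b (x : Bool) : ThreeToOne (fun y : FF => gb x * y) := by
  refine ⟨fun _ => rb, ?_⟩
  intro y
  refine ⟨0, ?_⟩
  rcases y with ⟨p, q⟩ | ⟨d, w⟩
  · show rb (FF.t (⟨[x], 0⟩ * ⟨p, q⟩)) = _
    rw [tm_mul]
    simp [rb]
  · show rb (FF.c (dg ⟨[x], 0⟩ + d) w) = _
    simp [rb, dg]

/-- The two candidates for the preimage under `c`. -/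
def rc (i : Fin 3) : FF → FF
  | FF.t w => FF.t w
  | FF.c d w => if i = 0 then FF.t w else FF.c d w

lemma three_c : ThreeToOne (fun y : FF => gc * y) := by
  refine ⟨rc, ?_⟩
  intro y
  rcases y with w | ⟨d, w⟩
  · refine ⟨0, ?_⟩
    show rc 0 (FF.c 0 (1 * w)) = _
    rw [one_mul]
    simp [rc]
  · refine ⟨1, ?_⟩
    show rc 1 (FF.c (0 + dg 1 + d) w) = _
    simp [rc, dg_one]

lemma three_X (i : Fin 24) : ThreeToOne (fun s : SS => X i * s) := by
  unfold X
  split_ifs
  · exact three_of_snd _ _ three_a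
  · exact three_of_snd _ _ three_one
  · exact three_of_snd _ _ three_one
  · exact three_of_snd _ _ three_one
  · exact three_of_snd _ _ three_one
  · exact three_of_snd _ _ (three_b _)
  · exact three_of_snd _ _ (three_b _)
  · exact three_of_snd _ _ three_c

/-! ### The walk operator -/

/-- The adjoint of the walk operator. -/
noncomputable def CC : L2 SS →L[ℝ] L2 SS :=
  (1 / 24 : ℝ) • ∑ i : Fin 24, compOp (fun s : SS => X i * s) (three_X i)

/-- The walk operator. -/
noncomputable def TT : L2 SS →L[ℝ] L2 SS :=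
  (1 / 24 : ℝ) • ∑ i : Fin 24, lamOp (fun s : SS => X i * s) (three_X i)

lemma TT_eq : TT = star CC := by
  unfold TT CC
  rw [star_smul, star_sum]
  congr 1

lemma sum_apply_L2 {ι : Type} (I : Finset ι) (f : ι → L2 SS →L[ℝ] L2 SS) (v : L2 SS) (t : SS) :
    (∑ i ∈ I, f i) v t = ∑ i ∈ I, f i v t := by
  classical
  induction I using Finset.induction_on with
  | empty => simp
  | insert j I hj ih =>
      rw [Finset.sum_insert hj, Finset.sum_insert hj, ← ih]
      rfl

lemma TT_apply (v : L2 SS) (t : SS) :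
    TT v t = (1 / 24 : ℝ) * ∑ i : Fin 24, lamOp (fun s : SS => X i * s) (three_X i) v t := by
  rw [← sum_apply_L2]
  rfl

lemma CC_apply (v : L2 SS) (s : SS) :
    CC v s = (1 / 24 : ℝ) * ∑ i : Fin 24, v (X i * s) := by
  have h := sum_apply_L2 Finset.univ
    (fun i : Fin 24 => compOp (fun s : SS => X i * s) (three_X i)) v s
  have h2 : CC v s = (1 / 24 : ℝ) *
      (∑ i : Fin 24, compOp (fun s : SS => X i * s) (three_X i)) v s := rfl
  rw [h2, h]
  rfl

lemma isWalk : IsWalkOperator X TT := by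
  classical
  intro v t
  have h1 : HasSum (fun s : SS => ∑ i : Fin 24, v s * (if X i * s = t then (1 : ℝ) else 0))
      (∑ i : Fin 24, lamOp (fun s : SS => X i * s) (three_X i) v t) := by
    apply hasSum_sum
    intro i _
    have := hasSum_lamOp (fun s : SS => X i * s) (three_X i) v t
    convert this
  have h2 := h1.mul_left (1 / 24 : ℝ)
  rw [← TT_apply] at h2
  have h3 : (fun s : SS => v s * ((Nat.card {i : Fin 24 // X i * s = t} : ℝ) / (24 : ℕ))) =
      fun s : SS => (1 / 24 : ℝ) * ∑ i : Fin 24, v s * (if X i * s = t then (1 : ℝ) else 0) := by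
    funext s
    rw [← Finset.mul_sum, Finset.sum_boole, Nat.card_eq_fintype_card, Fintype.card_subtype]
    push_cast
    ring
  rw [h3]
  exact h2

lemma CC_nonneg (u : L2 SS) (hu : ∀ s, 0 ≤ u s) : ∀ s, 0 ≤ CC u s := by
  intro s
  rw [CC_apply]
  have := Finset.sum_nonneg (fun (i : Fin 24) (_ : i ∈ Finset.univ) => hu (X i * s))
  positivity

lemma CC_pow_nonneg (u : L2 SS) (hu : ∀ s, 0 ≤ u s) (n : ℕ) : ∀ s, 0 ≤ (CC ^ n) u s := by
  induction n with
  | zero => simpa using hu
  | succ n ih =>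
      rw [pow_succ']
      exact CC_nonneg _ ih

lemma CC_lower (u : L2 SS) (hu : ∀ s, 0 ≤ u s) (s : SS) :
    (17 / 24 : ℝ) * u (((1, ga) : SS) * s) ≤ CC u s := by
  rw [CC_apply]
  have h1 : ∑ i ∈ (Finset.univ.filter (fun i : Fin 24 => i.val < 17)), u (X i * s) ≤
      ∑ i : Fin 24, u (X i * s) :=
    Finset.sum_le_sum_of_subset_of_nonneg (Finset.filter_subset _ _) (fun i _ _ => hu _)
  have h2 : ∑ i ∈ (Finset.univ.filter (fun i : Fin 24 => i.val < 17)), u (X i * s) =
      17 * u (((1, ga) : SS) * s) := by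
    rw [Finset.sum_congr rfl (g := fun _ => u (((1, ga) : SS) * s))]
    · rw [Finset.sum_const]
      have : (Finset.univ.filter (fun i : Fin 24 => i.val < 17)).card = 17 := by decide
      rw [this]
      simp
    · intro i hi
      have hi' : i.val < 17 := (Finset.mem_filter.1 hi).2
      unfold X
      rw [if_pos hi']
  rw [h2] at h1
  linarith

/-- The basis vector at the identity. -/
noncomputable def e1 : L2 SS := by
  classical
  exact lp.single 2 (1 : SS) (1 : ℝ)

lemma e1_nonneg (s : SS) : 0 ≤ e1 s := by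
  classical
  unfold e1
  rw [lp.single_apply]
  by_cases h : s = 1
  · subst h
    simp
  · simp [h]

lemma e1_one : e1 (1 : SS) = 1 := by
  classical
  unfold e1
  rw [lp.single_apply]
  simp

lemma e1_norm : ‖e1‖ = 1 := by
  classical
  unfold e1
  rw [lp.norm_single (by norm_num)]
  simp

lemma CC_pow_lower (p : List Bool) :
    (17 / 24 : ℝ) ^ p.length ≤ (CC ^ p.length) e1 ((1, FF.t ⟨p, 0⟩) : SS) := by
  induction p with
  | nil =>
      have : ((1, FF.t ⟨[], 0⟩) : SS) = 1 := rfl
      rw [this]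
      simp [e1_one]
  | cons x p ih =>
      rw [List.length_cons, pow_succ', pow_succ']
      have h := CC_lower ((CC ^ p.length) e1) (CC_pow_nonneg _ e1_nonneg _)
        ((1, FF.t ⟨x :: p, 0⟩) : SS)
      have h2 : ((1, ga) : SS) * ((1, FF.t ⟨x :: p, 0⟩) : SS) = (1, FF.t ⟨p, 0⟩) := by
        rw [Prod.mk_mul_mk, one_mul]
        unfold ga
        rw [tt_mul, tm_mul]
        simp
      rw [h2] at h
      refine le_trans ?_ h
      exact mul_le_mul_of_nonneg_left ih (by norm_num)

lemma CC_pow_norm (n : ℕ) : (289 / 288 : ℝ) ^ n ≤ ‖CC ^ n‖ ^ 2 := by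
  classical
  have h1 : ‖(CC ^ n) e1‖ ≤ ‖CC ^ n‖ := by
    have := (CC ^ n).le_opNorm e1
    rwa [e1_norm, mul_one] at this
  have h2 : ‖(CC ^ n) e1‖ ^ 2 ≤ ‖CC ^ n‖ ^ 2 := by
    gcongr
  refine le_trans ?_ h2
  rw [norm_sq_eq]
  let φ : (Fin n → Bool) → SS := fun f => (1, FF.t ⟨List.ofFn f, 0⟩)
  have hφ : Function.Injective φ := by
    intro f g hfg
    have h3 : FF.t ⟨List.ofFn f, 0⟩ = FF.t ⟨List.ofFn g, 0⟩ := congrArg Prod.snd hfg
    have h4 : List.ofFn f = List.ofFn g := by
      injection h3 with h5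
      exact congrArg Tm.p h5
    exact List.ofFn_injective h4
  have h3 : ∑ s ∈ Finset.univ.image φ, ((CC ^ n) e1 s) ^ 2 ≤ ∑' s, ((CC ^ n) e1 s) ^ 2 :=
    Summable.sum_le_tsum _ (fun _ _ => sq_nonneg _) (summable_sq _)
  refine le_trans ?_ h3
  rw [Finset.sum_image (fun f _ g _ h => hφ h)]
  have h4 : ∀ f : Fin n → Bool, ((17 / 24 : ℝ) ^ n) ^ 2 ≤ ((CC ^ n) e1 (φ f)) ^ 2 := by
    intro f
    have h5 := CC_pow_lower (List.ofFn f)
    rw [List.length_ofFn] at h5
    have h6 : (0 : ℝ) ≤ (17 / 24 : ℝ) ^ n := by positivity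
    show ((17 / 24 : ℝ) ^ n) ^ 2 ≤ ((CC ^ n) e1 ((1, FF.t ⟨List.ofFn f, 0⟩) : SS)) ^ 2
    gcongr
  refine le_trans ?_ (Finset.sum_le_sum (fun f _ => h4 f))
  rw [Finset.sum_const, Finset.card_univ, Fintype.card_fun, Fintype.card_bool, Fintype.card_fin,
    nsmul_eq_mul, ← pow_mul, mul_comm n 2, pow_mul]
  push_cast
  rw [← mul_pow]
  apply le_of_eq
  congr 1
  norm_num

lemma TT_pow_norm (n : ℕ) : (289 / 288 : ℝ) ^ n ≤ ‖TT ^ n‖ ^ 2 := by
  have h := CC_pow_norm n
  rw [TT_eq, ← star_pow, ContinuousLinearMap.star_eq_adjoint, LinearIsometryEquiv.norm_map]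
  exact h

lemma one_le_TT_pow (n : ℕ) : 1 ≤ ‖TT ^ n‖ := by
  have h := TT_pow_norm n
  have h1 : (1 : ℝ) ≤ (289 / 288 : ℝ) ^ n := one_le_pow₀ (by norm_num)
  by_contra h2
  push Not at h2
  have h3 : ‖TT ^ n‖ ^ 2 < 1 := by
    have h4 := norm_nonneg (TT ^ n)
    nlinarith
  linarith

lemma one_lt_norm : 1 < ‖TT‖ := by
  have h := TT_pow_norm 1
  rw [pow_one, pow_one] at h
  by_contra h2
  push Not at h2
  have h4 := norm_nonneg TT
  nlinarith

lemma subadd : Subadditive (fun n : ℕ => Real.log ‖TT ^ n‖) := by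
  intro m n
  have h1 := one_le_TT_pow m
  have h2 := one_le_TT_pow n
  have h3 := one_le_TT_pow (m + n)
  show Real.log ‖TT ^ (m + n)‖ ≤ Real.log ‖TT ^ m‖ + Real.log ‖TT ^ n‖
  rw [← Real.log_mul (by positivity) (by positivity)]
  apply Real.log_le_log (by positivity)
  rw [pow_add]
  exact norm_mul_le _ _

lemma spectral : ∃ ρ : ℝ, Tendsto (fun n : ℕ => ‖TT ^ n‖ ^ (1 / (n : ℝ))) atTop (𝓝 ρ) ∧
    1 < ρ := by
  have hb : BddBelow (Set.range (fun n : ℕ => Real.log ‖TT ^ n‖ / n)) := by
    refine ⟨0, ?_⟩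
    rintro _ ⟨n, rfl⟩
    exact div_nonneg (Real.log_nonneg (one_le_TT_pow n)) (Nat.cast_nonneg n)
  have ht := subadd.tendsto_lim hb
  have h1 : Tendsto (fun n : ℕ => Real.exp (Real.log ‖TT ^ n‖ / n)) atTop
      (𝓝 (Real.exp subadd.lim)) := (Real.continuous_exp.tendsto _).comp ht
  have h2 : (fun n : ℕ => ‖TT ^ n‖ ^ (1 / (n : ℝ))) =
      fun n : ℕ => Real.exp (Real.log ‖TT ^ n‖ / n) := by
    funext n
    have h3 := one_le_TT_pow n
    rw [Real.rpow_def_of_pos (by linarith)]
    congr 1
    ring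
  refine ⟨Real.exp subadd.lim, ?_, ?_⟩
  · rw [h2]
    exact h1
  · rw [Real.one_lt_exp_iff]
    have h4 : Real.log (289 / 288) / 2 ≤ subadd.lim := by
      apply ge_of_tendsto ht
      filter_upwards [eventually_gt_atTop 0] with n hn
      have hn' : (0 : ℝ) < n := by exact_mod_cast hn
      rw [le_div_iff₀ hn']
      have h5 := Real.log_le_log (by positivity) (TT_pow_norm n)
      rw [Real.log_pow, Real.log_pow] at h5
      push_cast at h5
      linarith
    have h6 : 0 < Real.log (289 / 288) := Real.log_pos (by norm_num)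
    linarith

/-- The converse of the theorem of the problem fails: there are a finitely generated, left
reversible monoid with the Klawe condition and a finite generating family whose left random walk
operator is defined and bounded, with spectral radius and norm greater than `1`, such that the
monoid is not left amenable. -/
theorem result : ∃ (S : Type) (_ : Monoid S) (k : ℕ) (X : Fin k → S) (T : L2 S →L[ℝ] L2 S),
    Submonoid.closure (Set.range X) = ⊤ ∧ LeftReversible S ∧ Klawe S ∧ IsWalkOperator X T ∧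
      (∃ ρ : ℝ, Tendsto (fun n : ℕ => ‖T ^ n‖ ^ (1 / (n : ℝ))) atTop (𝓝 ρ) ∧ 1 < ρ) ∧
      1 < ‖T‖ ∧ ¬ LeftAmenable S :=
  ⟨SS, inferInstance, 24, X, TT, gen_closure, leftReversible, klawe, isWalk, spectral,
    one_lt_norm, not_amenable⟩

end Pool.Agent.Results.MP_122225_al.SpectralRadius
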